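import Mathlib
import Pool.Agent.K9h93.Bike.Thresh
import Pool.Agent.K9h93.Bike.Mono
import Pool.Agent.K9h93.Bike.Convex

set_option autoImplicit false

open Set Topology Real Matrix

namespace Pool.Agent.Results.MP_08099c_gt.ConvexTransition

/-- `Γ : ℝ → ℂ` is a simple strictly convex closed front track of period `T`: a regular
`T`-periodic curve, injective on `[0,T)`, which is the boundary of a compact strictly convex
region `K` with nonempty interior.  Only `C²`-smoothness is required. -/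
structure IsConvexFrontTrack (Γ : ℝ → ℂ) (T : ℝ) (K : Set ℂ) : Prop where
  period_pos : 0 < T
  smooth : ContDiff ℝ 2 Γ
  periodic : ∀ t, Γ (t + T) = Γ t
  regular : ∀ t, deriv Γ t ≠ 0
  simple : InjOn Γ (Ico 0 T)
  isCompact : IsCompact K
  strictConvex : StrictConvex ℝ K
  interior_nonempty : (interior K).Nonempty
  range_eq : range Γ = frontier K

/-- The no-skid condition `ℓ θ' = Γ' · (-sin θ, cos θ)` for a bicycle of length `ℓ`. -/
def IsSteering (Γ : ℝ → ℂ) (ℓ : ℝ) (θ : ℝ → ℝ) : Prop :=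
  ∀ t, HasDerivAt θ (((deriv Γ t).re * (-sin (θ t)) + (deriv Γ t).im * cos (θ t)) / ℓ) t

/-- The point `(cos (x/2), sin (x/2))`, spanning the point of the real projective line which
corresponds to the direction `x` on the circle. -/
noncomputable def halfAngle (x : ℝ) : Fin 2 → ℝ := ![cos (x / 2), sin (x / 2)]

/-- `M ∈ SL(2,ℝ)` is a lift of the monodromy `θ(0) ↦ θ(T)` of `Γ` for length `ℓ`. -/
def IsMonodromyLift (Γ : ℝ → ℂ) (T ℓ : ℝ) (M : SpecialLinearGroup (Fin 2) ℝ) : Prop :=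
  ∀ θ : ℝ → ℝ, IsSteering Γ ℓ θ → ∃ c : ℝ, c ≠ 0 ∧
    (M : Matrix (Fin 2) (Fin 2) ℝ) *ᵥ halfAngle (θ 0) = c • halfAngle (θ T)

open Pool.Agent.K9h93.Bike

lemma steering_iff {Γ : ℝ → ℂ} {ρ φ : ℝ → ℝ}
    (h : ∀ t, (deriv Γ t).re = ρ t * cos (φ t) ∧ (deriv Γ t).im = ρ t * sin (φ t)) (ℓ : ℝ)
    (θ : ℝ → ℝ) : IsSteering Γ ℓ θ ↔ Sol (1 / ℓ) ρ φ θ := by
  have e : ∀ t, ((deriv Γ t).re * (-sin (θ t)) + (deriv Γ t).im * cos (θ t)) / ℓ =
      1 / ℓ * ρ t * sin (φ t - θ t) := by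
    intro t
    rw [(h t).1, (h t).2, Real.sin_sub]; ring
  unfold IsSteering Sol
  simp only [e]

/-- The statement in terms of matrix entries, for a positively oriented track. -/
theorem entries_pos {Γ : ℝ → ℂ} {T : ℝ} (P : PosTrack Γ T) :
    ∃ ℓ₀ : ℝ, 0 < ℓ₀ ∧ ∀ ℓ : ℝ, 0 < ℓ → ∀ a b c d : ℝ, a * d - b * c = 1 →
      (∀ θ : ℝ → ℝ, IsSteering Γ ℓ θ → ∃ r : ℝ,
        a * cos (θ 0 / 2) + b * sin (θ 0 / 2) = r * cos (θ T / 2) ∧
        c * cos (θ 0 / 2) + d * sin (θ 0 / 2) = r * sin (θ T / 2)) →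
      (ℓ < ℓ₀ → 2 < |a + d|) ∧ (ℓ₀ < ℓ → |a + d| < 2) := by
  obtain ⟨ρ, φ, k, D, hΓ⟩ := P.data
  obtain ⟨κ₀, hκ₀, hell, hhyp⟩ := threshold D
  refine ⟨1 / κ₀, by positivity, ?_⟩
  intro ℓ hℓ a b c d hdet hlift
  have hρ := D.ρcont
  have hφ := D.φcont
  obtain ⟨a', b', c', d', hdet', hM⟩ := exists_matrix (p := fun t => 1 / ℓ / 2 * ρ t * cos (φ t))
    (q := fun t => 1 / ℓ / 2 * ρ t * sin (φ t)) (by fun_prop) (by fun_prop) T
  have hM' : ∀ θ : ℝ → ℝ, Sol (1 / ℓ) ρ φ θ → ∃ r > 0,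
        a' * cos (θ 0 / 2) + b' * sin (θ 0 / 2) = r * cos (θ T / 2) ∧
        c' * cos (θ 0 / 2) + d' * sin (θ 0 / 2) = r * sin (θ T / 2) := by
    intro θ hθ
    apply hM θ
    intro t
    refine (hθ t).congr_deriv ?_
    rw [Real.sin_sub]; ring
  have hex : ∀ x, ∃ θ, θ 0 = x ∧ Sol (1 / ℓ) ρ φ θ := exists_sol D (1 / ℓ)
  have htr : |a + d| = |a' + d'| := by
    apply lift_unique hdet' hdet
    · obtain ⟨θ, h0, h1⟩ := hex 0
      obtain ⟨r, -, e1, e2⟩ := hM' θ h1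
      obtain ⟨r', e3, e4⟩ := hlift θ ((steering_iff hΓ ℓ θ).2 h1)
      rw [h0] at e1 e2 e3 e4
      simp only [zero_div, cos_zero, sin_zero, mul_one, mul_zero, add_zero] at e1 e2 e3 e4
      rw [e1, e2, e3, e4]; ring
    · obtain ⟨θ, h0, h1⟩ := hex π
      obtain ⟨r, -, e1, e2⟩ := hM' θ h1
      obtain ⟨r', e3, e4⟩ := hlift θ ((steering_iff hΓ ℓ θ).2 h1)
      rw [h0] at e1 e2 e3 e4
      simp only [Real.cos_pi_div_two, Real.sin_pi_div_two, mul_one, mul_zero,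
        zero_add] at e1 e2 e3 e4
      rw [e1, e2, e3, e4]; ring
    · obtain ⟨θ, h0, h1⟩ := hex (π / 2)
      obtain ⟨r, -, e1, e2⟩ := hM' θ h1
      obtain ⟨r', e3, e4⟩ := hlift θ ((steering_iff hΓ ℓ θ).2 h1)
      rw [h0] at e1 e2 e3 e4
      have h4 : π / 2 / 2 = π / 4 := by ring
      rw [h4, Real.cos_pi_div_four, Real.sin_pi_div_four] at e1 e2 e3 e4
      have hs : √2 ≠ 0 := by positivity
      have hs2 : √2 * √2 = 2 := Real.mul_self_sqrt (by norm_num)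
      have e5 : (√2 / 2 * (a' + b')) * (√2 / 2 * (c + d)) -
          (√2 / 2 * (c' + d')) * (√2 / 2 * (a + b)) = 0 := by
        have f1 : √2 / 2 * (a' + b') = r * cos (θ T / 2) := by linarith
        have f2 : √2 / 2 * (c + d) = r' * sin (θ T / 2) := by linarith
        have f3 : √2 / 2 * (c' + d') = r * sin (θ T / 2) := by linarith
        have f4 : √2 / 2 * (a + b) = r' * cos (θ T / 2) := by linarith
        rw [f1, f2, f3, f4]; ring
      have e6 : (√2 / 2 * (a' + b')) * (√2 / 2 * (c + d)) -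
          (√2 / 2 * (c' + d')) * (√2 / 2 * (a + b)) =
          (√2 * √2) / 4 * ((a' + b') * (c + d) - (c' + d') * (a + b)) := by ring
      rw [e6, hs2] at e5
      linarith
  have hform : ∀ θ : ℝ → ℝ, Sol (1 / ℓ) ρ φ θ → ∃ r > 0,
      cos (θ 0 / 2) * (c' * cos (θ 0 / 2) + d' * sin (θ 0 / 2)) -
        sin (θ 0 / 2) * (a' * cos (θ 0 / 2) + b' * sin (θ 0 / 2)) =
        r * sin ((θ T - θ 0) / 2) := by
    intro θ hθ
    obtain ⟨r, hr, e1, e2⟩ := hM' θ hθ
    refine ⟨r, hr, ?_⟩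
    rw [e1, e2]
    have : (θ T - θ 0) / 2 = θ T / 2 - θ 0 / 2 := by ring
    rw [this, Real.sin_sub]; ring
  rw [htr]
  constructor
  · intro hlt
    have hκ : κ₀ < 1 / ℓ := by
      rw [lt_div_iff₀ hℓ]
      rw [lt_div_iff₀ hκ₀] at hlt
      linarith
    obtain ⟨⟨θ₁, h1, h1a, h1b⟩, θ₂, h2, h2a, h2b⟩ := hhyp _ hκ
    obtain ⟨r₁, hr₁, e₁⟩ := hform θ₁ h1
    obtain ⟨r₂, hr₂, e₂⟩ := hform θ₂ h2
    apply trace_hyperbolic hdet' (s := θ₁ 0 / 2) (s' := θ₂ 0 / 2)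
    · rw [e₁]
      exact mul_pos hr₁ (Real.sin_pos_of_pos_of_lt_pi (by linarith) (by linarith))
    · rw [e₂]
      have hpi := Real.pi_pos
      have : sin ((θ₂ T - θ₂ 0) / 2) = -sin ((θ₂ T - θ₂ 0) / 2 - π) := by
        rw [Real.sin_sub_pi]; ring
      rw [this]
      have h3 : 0 < sin ((θ₂ T - θ₂ 0) / 2 - π) :=
        Real.sin_pos_of_pos_of_lt_pi (by linarith) (by linarith)
      nlinarith
  · intro hlt
    have hκ : 1 / ℓ < κ₀ := by
      rw [div_lt_iff₀ hℓ]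
      rw [div_lt_iff₀ hκ₀] at hlt
      linarith
    apply trace_elliptic hdet'
    intro s
    obtain ⟨θ, h0, h1⟩ := hex (2 * s)
    obtain ⟨r, hr, e⟩ := hform θ h1
    have h2 := hell _ (by positivity) hκ θ h1
    have h3 : θ 0 / 2 = s := by rw [h0]; ring
    rw [h3] at e
    rw [e]
    exact mul_pos hr (Real.sin_pos_of_pos_of_lt_pi (by linarith) (by linarith))

lemma deriv_conj {Γ : ℝ → ℂ} (h : Differentiable ℝ Γ) (t : ℝ) :
    deriv (fun t => (starRingEnd ℂ) (Γ t)) t = (starRingEnd ℂ) (deriv Γ t) :=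
  ((Complex.conjCLE.toContinuousLinearMap.hasFDerivAt).comp_hasDerivAt t
    (h t).hasDerivAt).deriv

theorem entries {Γ : ℝ → ℂ} {T : ℝ} {K : Set ℂ} (h : IsConvexFrontTrack Γ T K) :
    ∃ ℓ₀ : ℝ, 0 < ℓ₀ ∧ ∀ ℓ : ℝ, 0 < ℓ → ∀ a b c d : ℝ, a * d - b * c = 1 →
      (∀ θ : ℝ → ℝ, IsSteering Γ ℓ θ → ∃ r : ℝ,
        a * cos (θ 0 / 2) + b * sin (θ 0 / 2) = r * cos (θ T / 2) ∧
        c * cos (θ 0 / 2) + d * sin (θ 0 / 2) = r * sin (θ T / 2)) →
      (ℓ < ℓ₀ → 2 < |a + d|) ∧ (ℓ₀ < ℓ → |a + d| < 2) := by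
  have hd : Differentiable ℝ Γ := h.smooth.differentiable (by norm_num)
  have hmem : ∀ s, Γ s ∈ K := by
    intro s
    have h1 : Γ s ∈ frontier K := by rw [← h.range_eq]; exact mem_range_self s
    exact h.isCompact.isClosed.frontier_subset h1
  have hmid : ∀ t s, Γ s ≠ Γ t → (1 / 2 : ℝ) • Γ s + (1 / 2 : ℝ) • Γ t ∈ interior K :=
    fun t s hne => h.strictConvex (hmem s) (hmem t) hne (by norm_num) (by norm_num) (by norm_num)
  have hcr : ∀ t s, cr (deriv Γ t) ((1 / 2 : ℝ) • Γ s + (1 / 2 : ℝ) • Γ t - Γ t) =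
      1 / 2 * cr (deriv Γ t) (Γ s - Γ t) := by
    intro t s
    rw [← cr_smul_right]
    congr 1
    module
  have hsimple := simple_of_injOn h.period_pos h.periodic h.simple
  rcases orientation h.smooth h.regular h.strictConvex.convex h.range_eq h.interior_nonempty with
    hpos | hneg
  · apply entries_pos
    refine ⟨h.period_pos, h.smooth, h.periodic, h.regular, hsimple, ?_⟩
    intro t s hne
    have h1 := hpos t _ (hmid t s hne)
    rw [hcr] at h1
    linarith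
  · have P : PosTrack (fun t => (starRingEnd ℂ) (Γ t)) T := by
      refine ⟨h.period_pos, ?_, fun t => by simp only [h.periodic], fun t => ?_, ?_, ?_⟩
      · exact Complex.conjCLE.toContinuousLinearMap.contDiff.comp h.smooth
      · rw [deriv_conj hd]
        simpa using h.regular t
      · intro s t hst he
        exact hsimple s t hst (by simpa using congrArg (starRingEnd ℂ) he)
      · intro t s hne
        have hne' : Γ s ≠ Γ t := fun he => hne (by simp only [he])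
        have h1 := hneg t _ (hmid t s hne')
        rw [hcr] at h1
        rw [deriv_conj hd]
        simp only [cr, Complex.conj_re, Complex.conj_im, Complex.sub_re, Complex.sub_im] at h1 ⊢
        linarith
    obtain ⟨ℓ₀, h0, h1⟩ := entries_pos P
    refine ⟨ℓ₀, h0, fun ℓ hℓ a b c d hdet hlift => ?_⟩
    apply h1 ℓ hℓ a (-b) (-c) d (by linarith)
    intro θ hθ
    have h2 : IsSteering Γ ℓ (fun t => -θ t) := by
      intro t
      refine (hθ t).neg.congr_deriv ?_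
      rw [deriv_conj hd, Complex.conj_re, Complex.conj_im, Real.sin_neg, Real.cos_neg]
      ring
    obtain ⟨r, e1, e2⟩ := hlift _ h2
    refine ⟨r, ?_, ?_⟩
    · rw [neg_div, neg_div, Real.cos_neg, Real.cos_neg, Real.sin_neg] at e1
      linarith
    · rw [neg_div, neg_div, Real.cos_neg, Real.sin_neg, Real.sin_neg] at e2
      linarith

/-- Hyperbolic-to-elliptic transition for simple strictly convex closed front tracks. -/
theorem result (Γ : ℝ → ℂ) (T : ℝ) (K : Set ℂ) (h : IsConvexFrontTrack Γ T K) :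
    (∀ ℓ : ℝ, 0 < ℓ → (∀ x : ℝ, ∃ θ : ℝ → ℝ, θ 0 = x ∧ IsSteering Γ ℓ θ) ∧
      ∃ M : SpecialLinearGroup (Fin 2) ℝ, IsMonodromyLift Γ T ℓ M) ∧
    ∃ ℓ₀ : ℝ, 0 < ℓ₀ ∧ ∀ ℓ : ℝ, 0 < ℓ → ∀ M : SpecialLinearGroup (Fin 2) ℝ,
      IsMonodromyLift Γ T ℓ M →
        (ℓ < ℓ₀ → 2 < |(M : Matrix (Fin 2) (Fin 2) ℝ).trace|) ∧
        (ℓ₀ < ℓ → |(M : Matrix (Fin 2) (Fin 2) ℝ).trace| < 2) := by
  have hdc : Continuous (deriv Γ) := h.smooth.continuous_deriv (by norm_num)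
  constructor
  · intro ℓ hℓ
    constructor
    · intro x
      obtain ⟨θ, h0, h1⟩ := exists_solution (A := fun t => -((deriv Γ t).re / ℓ))
        (B := fun t => (deriv Γ t).im / ℓ) (by fun_prop) (by fun_prop) x
      refine ⟨θ, h0, fun t => (h1 t).congr_deriv ?_⟩
      ring
    · obtain ⟨a, b, c, d, hdet, hM⟩ := exists_matrix (p := fun t => (deriv Γ t).re / (2 * ℓ))
        (q := fun t => (deriv Γ t).im / (2 * ℓ)) (by fun_prop) (by fun_prop) T
      refine ⟨⟨!![a, b; c, d], by rw [Matrix.det_fin_two_of]; exact hdet⟩, ?_⟩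
      intro θ hθ
      obtain ⟨r, hr, e1, e2⟩ := hM θ (fun t => (hθ t).congr_deriv (by field_simp; ring))
      refine ⟨r, hr.ne', ?_⟩
      ext i
      fin_cases i
      · simpa [halfAngle, Matrix.mulVec, dotProduct, Fin.sum_univ_two] using e1
      · simpa [halfAngle, Matrix.mulVec, dotProduct, Fin.sum_univ_two] using e2
  · obtain ⟨ℓ₀, h0, h1⟩ := entries h
    refine ⟨ℓ₀, h0, fun ℓ hℓ M hM => ?_⟩
    have hdet : M.1 0 0 * M.1 1 1 - M.1 0 1 * M.1 1 0 = 1 := by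
      rw [← Matrix.det_fin_two]; exact M.2
    rw [Matrix.trace_fin_two]
    apply h1 ℓ hℓ _ _ _ _ hdet
    intro θ hθ
    obtain ⟨r, -, e⟩ := hM θ hθ
    refine ⟨r, ?_, ?_⟩
    · have := congrFun e 0
      simpa [halfAngle, Matrix.mulVec, dotProduct, Fin.sum_univ_two] using this
    · have := congrFun e 1
      simpa [halfAngle, Matrix.mulVec, dotProduct, Fin.sum_univ_two] using this

end Pool.Agent.Results.MP_08099c_gt.ConvexTransition
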